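import Pool.Agent.H66.FA.T

/-!
Row RCS of the board fab_modules (MP_f6facd_gt): Cauchy and Schwarz for the connection terms.
-/

set_option autoImplicit false

open Matrix

namespace Pool.Agent.H37.FA

open Pool.Agent.H66.FA Pool.Agent.H63.Fins MeasureTheory Filter Topology

theorem pf_RCS : T_RCS := by
  intro m G τ hG
  have h00 : 0 < G 0 0 := hG.diag_pos
  refine ⟨h00, ?_⟩
  have hsym : ∀ i j, G i j = G j i := by
    intro i j
    have := hG.isHermitian.apply i j
    simpa using this.symm
  set a : Fin (m + 1) → ℝ := fun k => ∑ l, G k l * τ l with ha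
  have ha0 : ∑ k, G k 0 * τ k = a 0 := by
    rw [ha]
    exact Finset.sum_congr rfl fun k _ => by rw [hsym k 0]
  set Q : ℝ := ∑ k, τ k * a k with hQ
  -- Cauchy-Schwarz
  have hCS : a 0 ^ 2 ≤ G 0 0 * Q := by
    set r : ℝ := a 0 / G 0 0 with hr
    set x : Fin (m + 1) → ℝ := fun k => τ k - (if k = 0 then r else 0) with hx
    have h1 : 0 ≤ x ⬝ᵥ (G *ᵥ x) := by
      have := hG.posSemidef.dotProduct_mulVec_nonneg x
      simpa using this
    have h2 : ∀ k, (G *ᵥ x) k = a k - G k 0 * r := by
      intro k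
      simp only [Matrix.mulVec, dotProduct, hx, ha, mul_sub, Finset.sum_sub_distrib, mul_ite,
        mul_zero, Finset.sum_ite_eq', Finset.mem_univ, if_true]
    have h3 : x ⬝ᵥ (G *ᵥ x) = Q - 2 * r * a 0 + r ^ 2 * G 0 0 := by
      have h4 : x ⬝ᵥ (G *ᵥ x) = ∑ k, (τ k - (if k = 0 then r else 0)) * (a k - G k 0 * r) := by
        rw [dotProduct]
        exact Finset.sum_congr rfl fun k _ => by rw [h2 k]
      rw [h4]
      have h5 : ∀ k, (τ k - (if k = 0 then r else 0)) * (a k - G k 0 * r) =
          τ k * a k - r * (G k 0 * τ k) - (if k = 0 then r * (a k - G k 0 * r) else 0) := by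
        intro k
        split_ifs <;> ring
      simp only [h5, Finset.sum_sub_distrib, ← Finset.mul_sum, Finset.sum_ite_eq',
        Finset.mem_univ, if_true]
      rw [ha0]
      ring
    rw [h3] at h1
    have h6 : r * G 0 0 = a 0 := by
      rw [hr]; field_simp
    have h7 : 0 ≤ (Q - 2 * r * a 0 + r ^ 2 * G 0 0) * G 0 0 := mul_nonneg h1 h00.le
    have h8 : (Q - 2 * r * a 0 + r ^ 2 * G 0 0) * G 0 0 = G 0 0 * Q - a 0 ^ 2 := by
      have : (Q - 2 * r * a 0 + r ^ 2 * G 0 0) * G 0 0 =
        G 0 0 * Q - 2 * (r * G 0 0) * a 0 + (r * G 0 0) ^ 2 := by ring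
      rw [this, h6]; ring
    linarith
  -- the double sum
  have hsum : (∑ j, ∑ k, 1 / 2 * ((if j = 0 then ∑ l, G k l * τ l else 0) - G k 0 * τ j) *
      (1 / 2 * ((if k = 0 then ∑ l, G j l * τ l else 0) - G j 0 * τ k))) =
      (a 0 ^ 2 - G 0 0 * Q) / 2 := by
    have e1 : ∀ j k : Fin (m + 1),
        1 / 2 * ((if j = 0 then ∑ l, G k l * τ l else 0) - G k 0 * τ j) *
        (1 / 2 * ((if k = 0 then ∑ l, G j l * τ l else 0) - G j 0 * τ k)) =
        1 / 4 * ((if j = 0 then (if k = 0 then a k * a j else 0) else 0)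
          - (if j = 0 then G j 0 * (τ k * a k) else 0)
          - (if k = 0 then G k 0 * (τ j * a j) else 0)
          + (G k 0 * τ k) * (G j 0 * τ j)) := by
      intro j k
      simp only [ha]
      split_ifs <;> ring
    simp only [e1, ← Finset.mul_sum, Finset.sum_add_distrib, Finset.sum_sub_distrib,
      Finset.sum_ite_eq', Finset.mem_univ, if_true]
    have e2 : (∑ j : Fin (m + 1), ∑ k : Fin (m + 1),
        (if j = 0 then (if k = 0 then a k * a j else 0) else 0)) = a 0 ^ 2 := by
      rw [Finset.sum_eq_single (0 : Fin (m + 1))]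
      · rw [Finset.sum_eq_single (0 : Fin (m + 1))]
        · simp; ring
        · intro b _ hb; simp [hb]
        · simp
      · intro b _ hb; simp [hb]
      · simp
    have e3 : (∑ j : Fin (m + 1), ∑ k : Fin (m + 1),
        (if j = 0 then G j 0 * (τ k * a k) else 0)) = G 0 0 * Q := by
      rw [Finset.sum_eq_single (0 : Fin (m + 1))]
      · simp [hQ, Finset.mul_sum]
      · intro b _ hb; simp [hb]
      · simp
    have e5 : (∑ j : Fin (m + 1), (G j 0 * τ j)) = a 0 := ha0
    rw [e2, e3]
    simp only [← Finset.mul_sum, ← Finset.sum_mul, e5]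
    ring
  rw [hsum]
  linarith

end Pool.Agent.H37.FA
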